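import Pool.Agent.K3h97.NB.Final

set_option autoImplicit false

open Set Filter Topology

namespace Pool.Agent.Results.MP_12ab79_an.RealDataBlowup

/-- `a`, read as the family of Fourier coefficients of `u(x) = ∑ a k e^{2πikx}`, lies in `A_ν` -/
def InA (ν : ℝ) (a : ℤ → ℂ) : Prop := Summable fun k : ℤ => ‖a k‖ * ν ^ k.natAbs

/-- the norm `∑ |a k| ν^{|k|}` of `A_ν` -/
noncomputable def normA (ν : ℝ) (a : ℤ → ℂ) : ℝ := ∑' k : ℤ, ‖a k‖ * ν ^ k.natAbs

/-- the Fourier coefficients of `u²` -/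
noncomputable def sq (a : ℤ → ℂ) (k : ℤ) : ℂ := ∑' j : ℤ, a j * a (k - j)

/-- `a t k`, `t ∈ [0, T]`, are the Fourier coefficients of a solution of `-i u_t = u_xx + u²` on
`[0, T]` with initial value `c`, of bounded `A_ν` norm: every `a t` lies in `A_ν`, the norms are
bounded, and each coefficient satisfies `a_k' = i (-(2πk)² a_k + (u²)_k)` at every time
of `[0, T]` -/
def SolvesIn (ν T : ℝ) (c : ℤ → ℂ) (a : ℝ → ℤ → ℂ) : Prop :=
  a 0 = c ∧ (∃ K : ℝ, ∀ t ∈ Icc 0 T, InA ν (a t) ∧ normA ν (a t) ≤ K) ∧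
  ∀ t ∈ Icc 0 T, ∀ k : ℤ, HasDerivWithinAt (fun s => a s k)
    (Complex.I * (-((2 * Real.pi * k) ^ 2) * a t k + sq (a t) k)) (Icc 0 T) t

/-- `a` is the maximal solution in `A_ν` with initial value `c`, it lives on `[0, T)`, and its
`A_ν` norm tends to infinity as `t` tends to `T`: `a` is a solution on `[0, t]` for every `t < T`,
the norm blows up at `T`, and every solution on some `[0, S]` has `S < T` and is equal to `a` -/
def BlowsUpAt (ν T : ℝ) (c : ℤ → ℂ) (a : ℝ → ℤ → ℂ) : Prop :=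
  0 < T ∧ (∀ t, 0 ≤ t → t < T → SolvesIn ν t c a) ∧
  Tendsto (fun t => normA ν (a t)) (𝓝[<] T) atTop ∧
  ∀ (S : ℝ) (b : ℝ → ℤ → ℂ), 0 ≤ S → SolvesIn ν S c b → S < T ∧ ∀ t ∈ Icc 0 S, b t = a t

open Pool.Agent.K3h97.NB

/-- the scale `(2π)²` -/
noncomputable def sc : ℝ := (2 * Real.pi) ^ 2

theorem sc_pos : 0 < sc := by
  have := Real.pi_pos
  unfold sc; positivity

theorem wf_norm {μ : ℝ} (hμ : 1 ≤ μ) (x : ℤ → ℂ) (k : ℤ) :
    ‖wf (Real.log μ) x k‖ = ‖x k‖ * μ ^ k.natAbs := by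
  unfold wf
  rw [norm_mul, Complex.norm_real, Real.norm_of_nonneg (Real.exp_pos _).le, mul_comm]
  congr 1
  have h1 : |(k : ℝ)| = (k.natAbs : ℝ) := by
    rw [Nat.cast_natAbs, Int.cast_abs]
  rw [h1, mul_comm, Real.exp_nat_mul, Real.exp_log (by linarith)]

theorem bd_iff {μ : ℝ} (hμ : 1 ≤ μ) (x : ℤ → ℂ) (K : ℝ) :
    Bd (wf (Real.log μ) x) K ↔ InA μ x ∧ normA μ x ≤ K := by
  have e : (fun k => ‖wf (Real.log μ) x k‖) = fun k : ℤ => ‖x k‖ * μ ^ k.natAbs :=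
    funext fun k => wf_norm hμ x k
  constructor
  · intro h
    refine ⟨?_, ?_⟩
    · have := h.summable
      rwa [e] at this
    · have := h.tsum_le
      rwa [e] at this
  · rintro ⟨h1, h2⟩
    have h3 : Summable fun k => ‖wf (Real.log μ) x k‖ := by rw [e]; exact h1
    refine (Bd.of_summable h3).mono ?_
    rw [e]; exact h2

theorem bd_smul {x : ℤ → ℂ} {K b : ℝ} (h : Bd (wf b x) K) (r : ℝ) :
    Bd (wf b fun k => (r : ℂ) * x k) (|r| * K) := by
  intro F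
  have e : ∀ k, ‖wf b (fun k => (r : ℂ) * x k) k‖ = |r| * ‖wf b x k‖ := by
    intro k
    unfold wf
    rw [norm_mul, norm_mul, norm_mul, Complex.norm_real r, Real.norm_eq_abs]
    ring
  simp only [e]
  rw [← Finset.mul_sum]
  exact mul_le_mul_of_nonneg_left (h F) (abs_nonneg r)

theorem conv_smul (r : ℂ) (x : ℤ → ℂ) (k : ℤ) :
    conv (fun k => r * x k) (fun k => r * x k) k = r ^ 2 * conv x x k := by
  unfold conv
  rw [← tsum_mul_left]
  exact tsum_congr fun l => by ring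

theorem two_pi_k (k : ℤ) : ((2 * Real.pi * k : ℂ)) ^ 2 = (sc : ℂ) * (k : ℂ) ^ 2 := by
  unfold sc; push_cast; ring

/-- from the equation with period `1` to the equation with period `2π` -/
theorem to_sol {μ T : ℝ} (hμ : 1 ≤ μ) {c : ℤ → ℂ} {a : ℝ → ℤ → ℂ} (h : SolvesIn μ T c a) :
    Sol Complex.I (Icc 0 (sc * T)) (fun s k => ((sc⁻¹ : ℝ) : ℂ) * a (sc⁻¹ * s) k) ∧
      ∃ K, ∀ s ∈ Icc 0 (sc * T),
        Bd (wf (Real.log μ) fun k => ((sc⁻¹ : ℝ) : ℂ) * a (sc⁻¹ * s) k) K := by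
  obtain ⟨h0, ⟨K, hK⟩, hd⟩ := h
  have hs0 := sc_pos
  have hmem : ∀ s ∈ Icc 0 (sc * T), sc⁻¹ * s ∈ Icc 0 T := by
    intro s hs
    refine ⟨mul_nonneg (inv_nonneg.2 hs0.le) hs.1, ?_⟩
    rw [inv_mul_le_iff₀ hs0]; exact hs.2
  refine ⟨?_, |sc⁻¹| * K, fun s hs => bd_smul ((bd_iff hμ _ _).2 (hK _ (hmem s hs))) _⟩
  intro k s hs
  have h1 := hd _ (hmem s hs) k
  have h2 : HasDerivWithinAt (fun r : ℝ => sc⁻¹ * r) sc⁻¹ (Icc 0 (sc * T)) s := by
    simpa using ((hasDerivAt_id s).const_mul sc⁻¹).hasDerivWithinAt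
  have h3 := h1.scomp s h2 (show MapsTo (fun r : ℝ => sc⁻¹ * r) (Icc 0 (sc * T)) (Icc 0 T) from
    fun r hr => hmem r hr)
  have h4 := h3.const_mul (((sc⁻¹ : ℝ) : ℂ))
  refine h4.congr_deriv ?_
  beta_reduce
  rw [conv_smul]
  have e : conv (a (sc⁻¹ * s)) (a (sc⁻¹ * s)) k = sq (a (sc⁻¹ * s)) k := rfl
  rw [e, Complex.real_smul, two_pi_k]
  have hne : (sc : ℂ) ≠ 0 := by exact_mod_cast hs0.ne'
  push_cast
  field_simp
  try ring

/-- from the equation with period `2π` to the equation with period `1` -/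
theorem of_sol {μ T : ℝ} (hμ : 1 ≤ μ) {c : ℤ → ℂ} {x : ℝ → ℤ → ℂ} (hx0 : x 0 = c)
    (hx : Sol Complex.I (Icc 0 (sc * T)) x)
    (hb : ∃ K, ∀ s ∈ Icc 0 (sc * T), Bd (wf (Real.log μ) (x s)) K) :
    SolvesIn μ T (fun k => (sc : ℂ) * c k) (fun t k => (sc : ℂ) * x (sc * t) k) := by
  have hs0 := sc_pos
  have hmem : ∀ t ∈ Icc 0 T, sc * t ∈ Icc 0 (sc * T) := by
    intro t ht
    exact ⟨mul_nonneg hs0.le ht.1, mul_le_mul_of_nonneg_left ht.2 hs0.le⟩
  obtain ⟨K, hK⟩ := hb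
  refine ⟨?_, ⟨|sc| * K, fun t ht => (bd_iff hμ _ _).1 (bd_smul (hK _ (hmem t ht)) _)⟩, ?_⟩
  · funext k
    simp only [mul_zero, hx0]
  · intro t ht k
    have h1 := hx k _ (hmem t ht)
    have h2 : HasDerivWithinAt (fun r : ℝ => sc * r) sc (Icc 0 T) t := by
      simpa using ((hasDerivAt_id t).const_mul sc).hasDerivWithinAt
    have h3 := h1.scomp t h2 (show MapsTo (fun r : ℝ => sc * r) (Icc 0 T) (Icc 0 (sc * T)) from
      fun r hr => hmem r hr)
    have h4 := h3.const_mul ((sc : ℝ) : ℂ)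
    refine h4.congr_deriv ?_
    have e : sq (fun k => (sc : ℂ) * x (sc * t) k) k =
      conv (fun k => (sc : ℂ) * x (sc * t) k) (fun k => (sc : ℂ) * x (sc * t) k) k := rfl
    rw [e, conv_smul, Complex.real_smul, two_pi_k]
    ring

theorem im_zero {c : ℤ → ℝ} (hc : ∀ k, c (-k) = c k) (x : ℝ) :
    (∑' k : ℤ, (c k : ℂ) * Complex.exp (2 * Real.pi * Complex.I * k * x)).im = 0 := by
  rw [← Complex.conj_eq_iff_im, Complex.conj_tsum]
  rw [← (Equiv.neg ℤ).tsum_eq]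
  refine tsum_congr fun k => ?_
  rw [map_mul, Complex.conj_ofReal, Equiv.neg_apply, hc, ← Complex.exp_conj]
  congr 2
  simp only [map_mul, Complex.conj_ofReal, Complex.conj_I, map_ofNat, map_intCast]
  push_cast
  ring

/-- **Real data can blow up.** For every `ν ≥ 1` and `ε > 0` there is a real-valued even `u₀`,
`u₀(x) = ∑ c k e^{2πikx}`, of `A_ν` norm less than `ε`, such that in every `A_μ`, `1 ≤ μ ≤ ν`, the
maximal solution of `-i u_t = u_xx + u²`, `u(0) = u₀`, ends at a finite time `T > 0` and its norm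
tends to infinity there. -/
theorem result (ν : ℝ) (hν : 1 ≤ ν) (ε : ℝ) (hε : 0 < ε) :
    ∃ c : ℤ → ℝ, (∀ k, c (-k) = c k) ∧
      (∀ x : ℝ, (∑' k : ℤ, (c k : ℂ) * Complex.exp (2 * Real.pi * Complex.I * k * x)).im = 0) ∧
      InA ν (fun k => (c k : ℂ)) ∧ normA ν (fun k => (c k : ℂ)) < ε ∧
      ∀ μ : ℝ, 1 ≤ μ → μ ≤ ν → ∃ (T : ℝ) (a : ℝ → ℤ → ℂ),
        BlowsUpAt μ T (fun k => (c k : ℂ)) a := by
  have hs0 := sc_pos
  obtain ⟨a, heven, hheat, hwb, hlim⟩ := exists_decaying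
  set L := Real.log ν with hL
  have hL0 : 0 ≤ L := Real.log_nonneg hν
  obtain ⟨σs, hσs1, hσs2⟩ : ∃ σs, L + 1 ≤ σs ∧ sc * Real.exp (L - σs) < ε := by
    have h1 : Tendsto (fun s : ℝ => sc * Real.exp (L - s)) atTop (𝓝 (sc * 0)) := by
      refine Tendsto.const_mul sc (Real.tendsto_exp_atBot.comp ?_)
      exact tendsto_const_nhds.add_atBot tendsto_neg_atTop_atBot |>.congr fun s => by ring
    rw [mul_zero] at h1
    obtain ⟨s, hs⟩ := ((h1.eventually (gt_mem_nhds hε)).and (eventually_ge_atTop (L + 1))).exists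
    exact ⟨s, hs.2, hs.1⟩
  obtain ⟨σ, hσ, T₀, hT₀, hno⟩ := exists_bad hheat hwb hlim (σs := σs) (by linarith)
  have hc0 : ∀ μ : ℝ, 1 ≤ μ → μ ≤ ν → Bd (wf (Real.log μ) fun k => (a k σ : ℂ))
      (Real.exp (L - σ)) := by
    intro μ h1 h2
    have h3 : Real.log μ ≤ L := Real.log_le_log (by linarith) h2
    exact (hwb (Real.log μ) σ (Real.log_nonneg h1) (by linarith)).mono
      (Real.exp_le_exp.2 (by linarith))
  have hcν := (bd_iff hν _ _).1 (bd_smul (hc0 ν hν le_rfl) sc)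
  have hcast : (fun k => ((sc * a k σ : ℝ) : ℂ)) = fun k => (sc : ℂ) * (a k σ : ℂ) := by
    funext k; push_cast; rfl
  refine ⟨fun k => sc * a k σ, fun k => by simp only [heven], im_zero fun k => by
    simp only [heven], ?_, ?_, ?_⟩
  · rw [hcast]; exact hcν.1
  · rw [hcast]
    refine lt_of_le_of_lt hcν.2 (lt_of_le_of_lt ?_ hσs2)
    rw [abs_of_pos hs0]
    exact mul_le_mul_of_nonneg_left (Real.exp_le_exp.2 (by linarith)) hs0.le
  · intro μ hμ hμν
    rw [hcast]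
    have hb : 0 ≤ Real.log μ := Real.log_nonneg hμ
    obtain ⟨T, x, hT, hx0, hxs, hxb, hxu⟩ := exists_max hb (hc0 μ hμ hμν) (T₀ := T₀) (by
      rintro ⟨x, h1, h2, K, h3⟩
      exact hno ⟨x, h1, h2, K, fun t ht => weight_bd hb (h3 t ht)⟩)
    refine ⟨sc⁻¹ * T, fun t k => (sc : ℂ) * x (sc * t) k, by positivity, ?_, ?_, ?_⟩
    · intro t ht0 ht
      have h1 : sc * t < T := by
        rwa [← lt_inv_mul_iff₀ hs0]
      obtain ⟨h2, h3⟩ := hxs _ h1
      exact of_sol hμ hx0 h2 h3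
    · rw [tendsto_atTop]
      intro M
      have h1 : Tendsto (fun t : ℝ => sc * t) (𝓝[<] (sc⁻¹ * T)) (𝓝[<] T) := by
        refine tendsto_nhdsWithin_iff.2 ⟨?_, ?_⟩
        · have h2 : Tendsto (fun t : ℝ => sc * t) (𝓝 (sc⁻¹ * T)) (𝓝 (sc * (sc⁻¹ * T))) :=
            (continuous_const.mul continuous_id).tendsto _
          rw [mul_inv_cancel_left₀ hs0.ne'] at h2
          exact h2.mono_left nhdsWithin_le_nhds
        · filter_upwards [self_mem_nhdsWithin] with t ht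
          have ht' : t < sc⁻¹ * T := ht
          rwa [mem_Iio, ← lt_inv_mul_iff₀ hs0]
      have h3 : ∀ᶠ t in 𝓝[<] (sc⁻¹ * T), 0 < t ∧ t < sc⁻¹ * T := Ioo_mem_nhdsLT (by positivity)
      filter_upwards [h1.eventually (hxb (M / sc)), h3] with t ht ht3
      by_contra hcon
      push Not at hcon
      apply ht
      have h4 : sc * t < T := by
        rw [← lt_inv_mul_iff₀ hs0]; exact ht3.2
      obtain ⟨_, K, hK⟩ := hxs _ h4
      have h5 := hK (sc * t) ⟨by have := ht3.1; positivity, le_rfl⟩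
      have h6 := (bd_iff hμ _ _).1 (bd_smul h5 sc)
      have h7 := (bd_iff hμ _ M).2 ⟨h6.1, hcon.le⟩
      have h8 := bd_smul h7 sc⁻¹
      have e : (fun k => ((sc⁻¹ : ℝ) : ℂ) * ((sc : ℂ) * x (sc * t) k)) = x (sc * t) := by
        funext k
        have hne : (sc : ℂ) ≠ 0 := by exact_mod_cast hs0.ne'
        push_cast
        rw [← mul_assoc, inv_mul_cancel₀ hne, one_mul]
      rw [e, abs_of_pos (inv_pos.2 hs0)] at h8
      refine h8.mono (le_of_eq ?_)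
      rw [div_eq_inv_mul]
    · intro S b hS hbS
      obtain ⟨h1, h2⟩ := to_sol hμ hbS
      have h3 : (fun s k => ((sc⁻¹ : ℝ) : ℂ) * b (sc⁻¹ * s) k) 0 = fun k => (a k σ : ℂ) := by
        funext k
        have hne : (sc : ℂ) ≠ 0 := by exact_mod_cast hs0.ne'
        simp only [mul_zero]
        rw [hbS.1]
        push_cast
        rw [← mul_assoc, inv_mul_cancel₀ hne, one_mul]
      obtain ⟨h4, h5⟩ := hxu (sc * S) (by positivity) _ h3 h1 h2
      refine ⟨by rwa [lt_inv_mul_iff₀ hs0], fun t ht => ?_⟩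
      have h6 := h5 (sc * t) ⟨mul_nonneg hs0.le ht.1, mul_le_mul_of_nonneg_left ht.2 hs0.le⟩
      funext k
      have hne : (sc : ℂ) ≠ 0 := by exact_mod_cast hs0.ne'
      beta_reduce
      rw [← congrFun h6 k]
      rw [inv_mul_cancel_left₀ hs0.ne']
      push_cast
      rw [← mul_assoc, mul_inv_cancel₀ hne, one_mul]

end Pool.Agent.Results.MP_12ab79_an.RealDataBlowup
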